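import Mathlib
import Pool.Agent.R945.LD.Three

set_option autoImplicit false

namespace Pool.Agent.Results.MP_d17a30_nt.OrderHalf

open Polynomial Pool.Agent.R945.LD

theorem result (p : ℕ) [Fact p.Prime] (hp : p % 4 = 3) :
    (Matrix.of fun j k : Fin ((p - 1) / 2) =>
      (X : ℤ[X]) + C (legendreSym p (((j : ℤ) + 1) - ((k : ℤ) + 1)))).det = X := by
  have hpp : p.Prime := Fact.out
  obtain ⟨m, hm⟩ : ∃ m, p = 2 * m + 1 := ⟨p / 2, by omega⟩
  have hm1 : (p - 1) / 2 = m := by omega
  rw [hm1]
  have h := lift_poly m (fun j k : Fin m => legendreSym p (((j : ℤ) + 1) - ((k : ℤ) + 1))) 1 (by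
    intro x
    by_cases hm2 : 2 ≤ m
    · have h1 := sum_order_m hp m hm hm2 x
      rw [Int.cast_one, one_mul]
      refine Eq.trans ?_ h1
      congr 1
      ext i j
      simp only [Matrix.of_apply, legendreSym]
      congr 3
      push_cast
      ring
    · have hm3 : m = 1 := by omega
      subst hm3
      simp [legendreSym])
  rw [h]
  simp

end Pool.Agent.Results.MP_d17a30_nt.OrderHalf
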